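import Pool.Agent.Helper56.RZ.GoalsF

/-!
# Packet OD5 of project RZ5: distances along orbits (adapted from Helper50/RZ/OD.lean)
-/

set_option autoImplicit false

namespace Pool.Agent.Helper51.RZ

open Set Filter Topology Pool.Agent.Helper56.RZ

theorem exp_step (u : ℝ) (hu : 0 ≤ u) : Real.exp u + 1 ≤ Real.exp (u + 1) := by
  have h1 : 1 ≤ Real.exp u := Real.one_le_exp hu
  have h2 : (2 : ℝ) ≤ Real.exp 1 := by
    have := Real.add_one_le_exp (1 : ℝ)
    linarith
  rw [Real.exp_add]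
  nlinarith

theorem od5 : StmtOD5 := by
  intro K M hM D a C0 Λ θ hLin ha hC0 hA hΛ haΛ hθ
  obtain ⟨δ1, hδ1, hlin⟩ := hLin.lin 1 one_pos
  have _ : CompactSpace M := isCompact_iff_compactSpace.mp hM
  have hua : UniformContinuous a := CompactSpace.uniformContinuous_of_continuous ha
  obtain ⟨δ2, hδ2, hua2⟩ := Metric.uniformContinuous_iff.mp hua 1 one_pos
  obtain ⟨δ, hδ⟩ : ∃ δ, δ = min (min θ 1) (min δ1 (δ2 / 2)) := ⟨_, rfl⟩
  have hδpos : 0 < δ := by
    rw [hδ]
    exact lt_min (lt_min hθ one_pos) (lt_min hδ1 (by linarith))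
  have hδθ : δ ≤ θ := by
    rw [hδ]
    exact (min_le_left _ _).trans (min_le_left _ _)
  have hδ1' : δ ≤ 1 := by
    rw [hδ]
    exact (min_le_left _ _).trans (min_le_right _ _)
  have hδδ1 : δ ≤ δ1 := by
    rw [hδ]
    exact (min_le_right _ _).trans (min_le_left _ _)
  have hδδ2 : δ < δ2 := by
    have : δ ≤ δ2 / 2 := by
      rw [hδ]
      exact (min_le_right _ _).trans (min_le_right _ _)
    linarith
  -- one step
  have hstep : ∀ x y : M, ‖(y : E K) - x‖ ≤ δ →
      ‖(D.f y : E K) - D.f x‖ ≤ Real.exp (a x + C0 + 1) * ‖(y : E K) - x‖ := by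
    intro x y hxy
    have h1 := hlin x y (hxy.trans hδδ1)
    have h2 : ‖(D.A x) ((y : E K) - x)‖ ≤ ‖D.A x‖ * ‖(y : E K) - x‖ := (D.A x).le_opNorm _
    have h3 : ‖(D.f y : E K) - D.f x‖ ≤
        ‖(D.f y : E K) - D.f x - D.A x ((y : E K) - x)‖ + ‖(D.A x) ((y : E K) - x)‖ := by
      have h4 := norm_add_le ((D.f y : E K) - D.f x - D.A x ((y : E K) - x))
        ((D.A x) ((y : E K) - x))
      rwa [sub_add_cancel] at h4
    have h5 := hA x
    have h6 : 0 ≤ a x + C0 := by
      have := haΛ x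
      linarith
    have h7 := exp_step (a x + C0) h6
    have h8 := norm_nonneg ((y : E K) - x)
    calc ‖(D.f y : E K) - D.f x‖
        ≤ 1 * ‖(y : E K) - x‖ + ‖D.A x‖ * ‖(y : E K) - x‖ := by linarith
      _ = (‖D.A x‖ + 1) * ‖(y : E K) - x‖ := by ring
      _ ≤ Real.exp (a x + C0 + 1) * ‖(y : E K) - x‖ := by
          apply mul_le_mul_of_nonneg_right _ h8
          linarith
  have haxy : ∀ x y : M, ‖(y : E K) - x‖ ≤ δ → a y ≤ a x + 1 := by
    intro x y hxy
    have h1 : dist y x < δ2 := by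
      rw [Subtype.dist_eq, dist_eq_norm]
      linarith
    have h2 := hua2 h1
    rw [Real.dist_eq] at h2
    have := (abs_lt.mp h2).2
    linarith
  refine ⟨δ, hδpos, hδθ, hδ1', ?_⟩
  intro x0 ρ hρ hCρ
  obtain ⟨s, hs⟩ : ∃ s : ℕ → ℝ, s = fun n => ∑ j ∈ Finset.range n, a (D.f^[j] x0) +
      n * (C0 + 2) := ⟨_, rfl⟩
  have hs0 : s 0 = 0 := by
    rw [hs]
    simp
  have hsS : ∀ n, s (n + 1) = s n + (a (D.f^[n] x0) + C0 + 2) := by
    intro n
    rw [hs]
    simp only [Finset.sum_range_succ, Nat.cast_add, Nat.cast_one]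
    ring
  have hsmono : Monotone s := by
    apply monotone_nat_of_le_succ
    intro n
    rw [hsS]
    have := haΛ (D.f^[n] x0)
    linarith
  have hsΛ : ∀ n : ℕ, n * Λ ≤ s n := by
    intro n
    induction n with
    | zero => simp [hs0]
    | succ n ih =>
      rw [hsS]
      have := haΛ (D.f^[n] x0)
      push_cast
      linarith
  have hex : ∃ n : ℕ, δ < ρ * Real.exp (s n) := by
    obtain ⟨n, hn⟩ := exists_nat_gt (δ / (ρ * Λ))
    refine ⟨n, ?_⟩
    have h1 : δ < n * (ρ * Λ) := by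
      rwa [div_lt_iff₀ (mul_pos hρ hΛ)] at hn
    have h2 : s n + 1 ≤ Real.exp (s n) := Real.add_one_le_exp _
    have h3 := hsΛ n
    calc δ < n * (ρ * Λ) := h1
      _ = ρ * (n * Λ) := by ring
      _ ≤ ρ * Real.exp (s n) := by
        apply mul_le_mul_of_nonneg_left _ hρ.le
        linarith
  classical
  obtain ⟨m, hm⟩ : ∃ m, m = Nat.find hex := ⟨_, rfl⟩
  have hm1 : δ < ρ * Real.exp (s m) := by
    rw [hm]
    exact Nat.find_spec hex
  have hm2 : ∀ j, j < m → ρ * Real.exp (s j) ≤ δ := by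
    intro j hj
    rw [hm] at hj
    exact not_lt.mp (Nat.find_min hex hj)
  have hmpos : m ≠ 0 := by
    intro h
    rw [h, hs0, Real.exp_zero, mul_one] at hm1
    linarith
  obtain ⟨N, rfl⟩ : ∃ N, m = N + 1 := ⟨m - 1, by omega⟩
  have hN : ∀ j ≤ N, ρ * Real.exp (s j) ≤ δ := fun j hj => hm2 j (by omega)
  have hexpN : Real.exp (s N) ≤ ρ⁻¹ := by
    have h1 := hN N le_rfl
    rw [← one_div, le_div_iff₀ hρ]
    linarith
  refine ⟨N, ?_, ?_, ?_, ?_⟩
  · refine le_trans (Real.exp_le_exp.mpr (hsΛ N)) hexpN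
  · have h1 := hN N le_rfl
    rw [hs] at h1
    exact h1
  · have e : s (N + 1) = ∑ j ∈ Finset.range (N + 1), a (D.f^[j] x0) + (N + 1) * (C0 + 2) := by
      rw [hs]
      push_cast
      rfl
    rw [← e]
    exact hm1.le
  · intro x hx
    have key : ∀ j, j ≤ N → ‖(D.f^[j] x : E K) - D.f^[j] x0‖ ≤ ‖(x : E K) - x0‖ * Real.exp (s j) := by
      intro j
      induction j with
      | zero =>
        intro _
        rw [hs0, Real.exp_zero, mul_one]
        exact le_rfl
      | succ j ih =>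
        intro hj
        have i1 := ih (by omega)
        have hNj := hN j (by omega)
        simp only [Function.iterate_succ_apply']
        have hee : Real.exp (s (j + 1)) =
            Real.exp (a (D.f^[j] x0) + C0 + 2) * Real.exp (s j) := by
          rw [hsS, ← Real.exp_add]
          congr 1
          ring
        have h0 : ‖(D.f^[j] x : E K) - D.f^[j] x0‖ ≤ δ := by
          calc ‖(D.f^[j] x : E K) - D.f^[j] x0‖ ≤ ‖(x : E K) - x0‖ * Real.exp (s j) := i1
            _ ≤ ρ * Real.exp (s j) := by gcongr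
            _ ≤ δ := hNj
        have h1 := hstep (D.f^[j] x0) (D.f^[j] x) h0
        have h2 : Real.exp (a (D.f^[j] x0) + C0 + 1) ≤ Real.exp (a (D.f^[j] x0) + C0 + 2) :=
          Real.exp_le_exp.mpr (by linarith)
        calc ‖(D.f (D.f^[j] x) : E K) - D.f (D.f^[j] x0)‖
            ≤ Real.exp (a (D.f^[j] x0) + C0 + 1) * ‖(D.f^[j] x : E K) - D.f^[j] x0‖ := h1
          _ ≤ Real.exp (a (D.f^[j] x0) + C0 + 2) * (‖(x : E K) - x0‖ * Real.exp (s j)) := by
              apply mul_le_mul h2 i1 (norm_nonneg _) (Real.exp_pos _).le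
          _ = ‖(x : E K) - x0‖ * Real.exp (s (j + 1)) := by
              rw [hee]
              ring
    intro j hj
    have i3 := key j hj
    rw [hs] at i3
    exact i3

end Pool.Agent.Helper51.RZ
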